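import Mathlib

/-!
# URW E/Const: choice of the constants, choice of the rotations (section 8)

PROOFS.
* `exists_consts`: induction on `N`, for all `t`. `N = 0`: `ε = t`, `η = fun _ => 1`, `r = fun _ => 0`.
  `N + 1`: put `η' = t / (2 (D + 1))`, choose `r'` with `P η' r'` (`hP`), `t' = t / (2 C r')`, and
  apply the induction hypothesis to `t'`: `ε`, `η`, `r`. Take `ε`,
  `fun s => if s < N then η s else η'`, `fun s => if s < N then r s else r'`. Then
  `a N ≤ t'` and `a (N + 1) ≤ C r' * a N + D * η' ≤ C r' * t' + D * η' ≤ t / 2 + t / 2`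
  (here `0 < C r'`, `0 ≤ D`).
* `pick`: the union of the `Bad s`, `s < N`, has at most
  `N * (1 / (2 (N + 1))) * card Ω < card Ω` elements (`Set.ncard` or `Finset.card_biUnion_le`,
  `Nat.card_eq_fintype_card`; `0 < Nat.card Ω`).
-/

set_option autoImplicit false

namespace URW

theorem exists_consts (P : ℝ → ℕ → Prop) (hP : ∀ η : ℝ, 0 < η → ∃ r, P η r) (C : ℕ → ℝ)
    (hC : ∀ r, 0 < C r) (D : ℝ) (hD : 0 ≤ D) (N : ℕ) (t : ℝ) (ht : 0 < t) :
    ∃ (ε : ℝ) (η : ℕ → ℝ) (r : ℕ → ℕ), 0 < ε ∧ (∀ s < N, 0 < η s ∧ P (η s) (r s)) ∧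
      ∀ a : ℕ → ℝ, a 0 ≤ ε → (∀ s < N, a (s + 1) ≤ C (r s) * a s + D * η s) → a N ≤ t := by
  induction N generalizing t with
  | zero =>
    exact ⟨t, fun _ => 1, fun _ => 0, ht, fun s hs => absurd hs (Nat.not_lt_zero s),
      fun a ha _ => ha⟩
  | succ N ih =>
    have hη : 0 < t / (2 * (D + 1)) := by positivity
    obtain ⟨r', hr'⟩ := hP _ hη
    have hCr := hC r'
    have ht' : 0 < t / (2 * C r') := by positivity
    obtain ⟨ε, η, r, hε, h1, h2⟩ := ih _ ht'
    refine ⟨ε, fun s => if s < N then η s else t / (2 * (D + 1)),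
      fun s => if s < N then r s else r', hε, ?_, ?_⟩
    · intro s hs
      by_cases hsN : s < N
      · simp only [if_pos hsN]
        exact h1 s hsN
      · simp only [if_neg hsN]
        exact ⟨hη, hr'⟩
    · intro a ha hst
      have h3 : a N ≤ t / (2 * C r') := by
        refine h2 a ha fun s hs => ?_
        have := hst s (by omega)
        simp only [if_pos hs] at this
        exact this
      have h4 := hst N (Nat.lt_succ_self N)
      simp only [if_neg (lt_irrefl N)] at h4
      have h5 : C r' * a N ≤ t / 2 := by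
        calc C r' * a N ≤ C r' * (t / (2 * C r')) := mul_le_mul_of_nonneg_left h3 hCr.le
          _ = t / 2 := by field_simp
      have h6 : D * (t / (2 * (D + 1))) ≤ t / 2 := by
        have h7 : D * (t / (2 * (D + 1))) = t / 2 * (D / (D + 1)) := by
          field_simp
        rw [h7]
        have h8 : D / (D + 1) ≤ 1 := by
          rw [div_le_one (by positivity)]
          linarith
        calc t / 2 * (D / (D + 1)) ≤ t / 2 * 1 := mul_le_mul_of_nonneg_left h8 (by positivity)
          _ = t / 2 := mul_one _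
      linarith

theorem pick {Ω : Type} [Finite Ω] [Nonempty Ω] (N : ℕ) (Bad : ℕ → Ω → Prop)
    (h : ∀ s < N, (Nat.card {c : Ω // Bad s c} : ℝ) ≤ 1 / (2 * (N + 1)) * (Nat.card Ω : ℝ)) :
    ∃ c : Ω, ∀ s < N, ¬ Bad s c := by
  classical
  have := Fintype.ofFinite Ω
  by_contra hcon
  push Not at hcon
  have hcard : (0 : ℝ) < (Fintype.card Ω : ℝ) := by
    exact_mod_cast Fintype.card_pos
  have h1 : (Finset.univ : Finset Ω) ⊆
      (Finset.range N).biUnion fun s => Finset.univ.filter fun c => Bad s c := by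
    intro c _
    obtain ⟨s, hs, hb⟩ := hcon c
    rw [Finset.mem_biUnion]
    exact ⟨s, Finset.mem_range.2 hs, by simpa using hb⟩
  have h2 := (Finset.card_le_card h1).trans Finset.card_biUnion_le
  have h3 : ∀ s ∈ Finset.range N, ((Finset.univ.filter fun c => Bad s c).card : ℝ) ≤
      1 / (2 * (N + 1)) * (Fintype.card Ω : ℝ) := by
    intro s hs
    have := h s (Finset.mem_range.1 hs)
    rw [Nat.card_eq_fintype_card, Nat.card_eq_fintype_card, Fintype.card_subtype] at this
    exact this
  have h4 : (Fintype.card Ω : ℝ) ≤ N * (1 / (2 * (N + 1)) * (Fintype.card Ω : ℝ)) := by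
    have h5 : (Fintype.card Ω : ℝ) ≤
        ∑ s ∈ Finset.range N, ((Finset.univ.filter fun c => Bad s c).card : ℝ) := by
      rw [Finset.card_univ] at h2
      exact_mod_cast h2
    refine h5.trans ((Finset.sum_le_sum h3).trans (le_of_eq ?_))
    rw [Finset.sum_const, Finset.card_range, nsmul_eq_mul]
  have h6 : (N : ℝ) * (1 / (2 * (N + 1))) ≤ 1 / 2 := by
    rw [mul_one_div, div_le_div_iff₀ (by positivity) (by norm_num)]
    linarith
  have h7 : (N : ℝ) * (1 / (2 * (N + 1)) * (Fintype.card Ω : ℝ)) ≤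
      1 / 2 * (Fintype.card Ω : ℝ) := by
    rw [← mul_assoc]
    exact mul_le_mul_of_nonneg_right h6 hcard.le
  linarith

end URW
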