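import Pool.Agent.URW.E.Pos

/-!
# URW E/Cov: the vertices on the segments number `≤ s` (section 8)

PROOF of `vs_cover`. Let `x ∈ VS (s + 1)`. If `x ∈ H` then `x ∈ VS s`. Otherwise there are
`h₀, h, A, B, u, w'` with `MinCh h₀ h (A ++ (u ++ w') :: B)`, `A.length < s + 1`,
`x = ρ (walk nW h₀ (A.flatten ++ u))`. If `A.length < s` then `x ∈ VS s`. Let `A.length = s`. Put
`w = u ++ w'`, `y = walk nW h₀ A.flatten`, `p = u.length`, so `x = ρ (walk nW y (w.take p))` and
`ρ y ∈ VS s` (`start_mem`). If `w = []` then `x = ρ y`. The segment `w` is a run in one of the two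
directions (`MinCh`, `Hch`: `Chn nW cW h₀ (A ++ w :: B)`, `chn_append`, the first component of
`Chn` of a cons is `Seg`).
(1) If `p ≤ r + 2 K3`: second alternative with `v = ρ y`, `i = w[0]`, `j = p` (`iter_take_fst` with
`q = 0` for the projected run, `run_rho`, `run_rho'`, `rho_walk`).
(2) If `p > r + 2 K3` then `r + 2 K3 < w.length`.
(2a) `w` forward, `p + K3 ≤ w.length`: `d = (x, w[p]) ∈ Sdeep s r` (`deep_fwd`; `p < w.length` since
`1 ≤ K3`), `j = 0`.
(2b) `w` forward, `p + K3 > w.length`: put `q = w.length - K3`; `K3 ≤ q`, `q + K3 = w.length`,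
`q < w.length`; `d = (ρ (walk y (w.take q)), w[q]) ∈ Sdeep s r`, `j = p - q ≤ K3`,
`iter_take_fst`: `x = (nxt^[j] d).1`.
(2c) `w` backward, `p + K3 ≤ w.length`: `d = (x, w[p - 1]) ∈ Sdeep s r` (`deep_bwd`), `j = 0`.
(2d) `w` backward, `p + K3 > w.length`: `q` as in (2b), `d = (ρ (walk y (w.take q)), w[q - 1])`
is in `Sdeep s r` by `deep_bwd`, and `(d.1, d.2 - c d.1) = (ρ (walk y (w.take q)), w[q])` by
`iter_take` with `q - 1` and `j = 1` for the projected run with `rneg ∘ c`
(`nxt nb c' (v, i) = (nb v i, i + c' (nb v i))`, second components; `rneg c = -c`); then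
`iter_take_fst` for this run: `x = (nxt_{rneg}^[p - q] (d.1, w[q])).1`.
-/

set_option autoImplicit false

namespace URW

variable {m : ℕ}

namespace Sys

variable {V : Type} [Group V] [Finite V] (X : Sys m V)

private theorem cov_zero {U : Type} {nb : U → Lab m → U} {c : U → Rot m} {x : U}
    {w : List (Lab m)} (h : RunFrom nb c x w) {p : ℕ} (h0 : 0 < w.length) (hp : p ≤ w.length) :
    ((nxt nb c)^[p] (x, w[0])).1 = walk nb x (w.take p) := by
  have h1 := iter_take_fst h (q := 0) (j := p) h0 (by omega)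
  rw [List.take_zero, Nat.zero_add, walk_nil] at h1
  exact h1

theorem vs_cover (s r : ℕ) {x : V} (hx : x ∈ X.VS (s + 1)) :
    x ∈ X.VS s ∨
    (∃ v ∈ X.VS s, ∃ i : Lab m, ∃ j ≤ r + 2 * X.K3,
      x = ((nxt (nbG X.ρ) X.c)^[j] (v, i)).1 ∨
      x = ((nxt (nbG X.ρ) (fun v => rneg (X.c v)))^[j] (v, i)).1) ∨
    ∃ d ∈ X.Sdeep s r, ∃ j ≤ X.K3,
      x = ((nxt (nbG X.ρ) X.c)^[j] d).1 ∨
      x = ((nxt (nbG X.ρ) (fun v => rneg (X.c v)))^[j] (d.1, d.2 - (X.c d.1).1)).1 := by
  rcases hx with hx | ⟨h₀, h, A, B, u, w', hl, hm, hA, hxe⟩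
  · exact Or.inl (Or.inl hx)
  rcases Nat.lt_succ_iff_lt_or_eq.1 hA with hA | hA
  · exact Or.inl (Or.inr ⟨h₀, h, A, B, u, w', hl, hm, hA, hxe⟩)
  subst hA
  obtain ⟨w, hw⟩ : ∃ w, w = u ++ w' := ⟨_, rfl⟩
  rw [← hw] at hm
  obtain ⟨y, hy⟩ : ∃ y, y = walk nW h₀ A.flatten := ⟨_, rfl⟩
  have hpu : w.take u.length = u := by
    rw [hw]
    exact List.take_left
  have hpw : u.length ≤ w.length := by
    rw [hw, List.length_append]
    omega
  have hx1 : x = X.ρ (walk nW y (w.take u.length)) := by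
    rw [hxe, walk_append, hpu, hy]
  have hx2 : x = walk (nbG X.ρ) (X.ρ y) (w.take u.length) := by
    rw [hx1, X.rho_walk]
  have hyV : X.ρ y ∈ X.VS A.length := by
    rw [hy]
    exact X.start_mem hl hm
  have hseg : Seg nW X.cW y w := by
    rw [hy]
    exact (chn_append.1 hm.1.2.1).2.1
  have hK := X.K3_pos
  rcases Nat.eq_zero_or_pos w.length with h0 | h0
  · left
    have h1 : w = [] := List.length_eq_zero_iff.1 h0
    rw [hx2, h1, List.take_nil, walk_nil]
    exact hyV
  right
  rcases le_or_gt u.length (r + 2 * X.K3) with hp | hp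
  · left
    refine ⟨X.ρ y, hyV, w[0], u.length, hp, ?_⟩
    rcases hseg with hr | hr
    · left
      rw [cov_zero (X.run_rho hr) h0 hpw]
      exact hx2
    · right
      rw [cov_zero (X.run_rho' hr) h0 hpw]
      exact hx2
  right
  have hlen : r + 2 * X.K3 < w.length := lt_of_lt_of_le hp hpw
  rcases le_or_gt (u.length + X.K3) w.length with hpk | hpk
  · -- the position is deep
    rcases hseg with hr | hr
    · have h1 : u.length < w.length := by omega
      have h2 := X.deep_fwd (r := r) hl hm (by rw [← hy]; exact hr) hlen (q := u.length)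
        (by omega) hpk h1
      rw [← hy] at h2
      exact ⟨_, h2, 0, Nat.zero_le _, Or.inl hx1⟩
    · have h1 : u.length - 1 < w.length := by omega
      have h2 := X.deep_bwd (r := r) hl hm (by rw [← hy]; exact hr) hlen (q := u.length)
        (by omega) hpk h1
      rw [← hy] at h2
      exact ⟨_, h2, 0, Nat.zero_le _, Or.inl hx1⟩
  · -- the position is near the end
    obtain ⟨q, hq⟩ : ∃ q, w.length - X.K3 = q + 1 := ⟨w.length - X.K3 - 1, by omega⟩
    have hj : q + 1 + (u.length - (q + 1)) = u.length := by omega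
    rcases hseg with hr | hr
    · have h1 : q + 1 < w.length := by omega
      have h2 := X.deep_fwd (r := r) hl hm (by rw [← hy]; exact hr) hlen (q := q + 1)
        (by omega) (by omega) h1
      rw [← hy] at h2
      refine ⟨_, h2, u.length - (q + 1), by omega, Or.inl ?_⟩
      have h3 := iter_take_fst (X.run_rho hr) (q := q + 1) (j := u.length - (q + 1)) h1
        (by omega)
      rw [hj, ← X.rho_walk] at h3
      rw [h3]
      exact hx2
    · have h1 : q + 1 - 1 < w.length := by omega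
      have h1' : q + 1 < w.length := by omega
      have h2 := X.deep_bwd (r := r) hl hm (by rw [← hy]; exact hr) hlen (q := q + 1)
        (by omega) (by omega) h1
      rw [← hy] at h2
      refine ⟨_, h2, u.length - (q + 1), by omega, Or.inr ?_⟩
      have h3 := iter_take_fst (X.run_rho' hr) (q := q + 1) (j := u.length - (q + 1)) h1'
        (by omega)
      have h4 := iter_take (X.run_rho' hr) (q := q) (j := 1) (by omega) h1'
      have h5 : nbG X.ρ (walk (nbG X.ρ) (X.ρ y) (w.take q)) w[q] =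
          walk (nbG X.ρ) (X.ρ y) (w.take (q + 1)) := congrArg Prod.fst h4
      have h6 : w[q] + (rneg (X.c (nbG X.ρ (walk (nbG X.ρ) (X.ρ y) (w.take q)) w[q]))).1 =
          w[q + 1] := congrArg Prod.snd h4
      rw [h5] at h6
      have h7 : w[q] - (X.c (X.ρ (walk nW y (w.take (q + 1))))).1 = w[q + 1] := by
        rw [← h6, X.rho_walk, sub_eq_add_neg]
        rfl
      have h8 : ((X.ρ (walk nW y (w.take (q + 1)))), w[q + 1 - 1]).1 =
          walk (nbG X.ρ) (X.ρ y) (w.take (q + 1)) := X.rho_walk y _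
      rw [hj] at h3
      rw [hx2, ← h3]
      change _ = ((nxt (nbG X.ρ) (fun v => rneg (X.c v)))^[u.length - (q + 1)]
        (X.ρ (walk nW y (w.take (q + 1))),
          w[q] - (X.c (X.ρ (walk nW y (w.take (q + 1))))).1)).1
      rw [h7, X.rho_walk]

end Sys

end URW
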