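import Pool.Agent.URW.E.Cov

/-!
# URW E/Step: counting (section 8)

PROOF of `count_step` (pure counting). `N'` is contained in
`N ∪ F '' (N ×ˢ (univ ×ˢ (Iic T ×ˢ univ))) ∪ G '' (S ×ˢ (Iic k ×ˢ univ))`, where the last factor
is `Bool` (`true`: `f`, `g`; `false`: `f'`, `g'`). `Set.ncard_le_ncard` (finite since `V` is finite),
`Set.ncard_union_le`, `Set.ncard_image_le`, `Set.ncard_prod`; the cardinality of `Lab m` is
`8 m + 1` (`ZMod.card`, `Nat.card_zmod`), of `Set.Iic T ⊆ ℕ` it is `T + 1`, of `Bool` it is `2`.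
(One may also work with `Finset`s and `Finset.card_biUnion_le`.)
PROOF of `vs_step`: `count_step` with `vs_cover`.
-/

set_option autoImplicit false

namespace URW

variable {m : ℕ}

theorem count_step {V : Type} [Finite V] {N N' : Set V} {S : Set (V × Lab m)} {T k : ℕ}
    (f f' : ℕ → V → Lab m → V) (g g' : ℕ → V × Lab m → V)
    (h : ∀ x ∈ N', x ∈ N ∨ (∃ v ∈ N, ∃ i : Lab m, ∃ j ≤ T, x = f j v i ∨ x = f' j v i) ∨
      ∃ d ∈ S, ∃ j ≤ k, x = g j d ∨ x = g' j d) :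
    N'.ncard ≤ (1 + 2 * (8 * m + 1) * (T + 1)) * N.ncard + 2 * (k + 1) * S.ncard := by
  have hLab : (Set.univ : Set (Lab m)).ncard = 8 * m + 1 := by
    rw [Set.ncard_univ, Nat.card_zmod]
  have hIic : ∀ t : ℕ, (Set.Iic t).ncard = t + 1 := by
    intro t
    rw [Set.ncard_eq_toFinset_card', Set.toFinset_Iic, Nat.card_Iic]
  have hB : (Set.univ : Set Bool).ncard = 2 := by
    rw [Set.ncard_univ, Nat.card_eq_fintype_card, Fintype.card_bool]
  obtain ⟨F, hF1, hF2⟩ : ∃ F : V × Lab m × ℕ × Bool → V,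
      (∀ v i j, F (v, i, j, true) = f j v i) ∧ ∀ v i j, F (v, i, j, false) = f' j v i :=
    ⟨fun z => bif z.2.2.2 then f z.2.2.1 z.1 z.2.1 else f' z.2.2.1 z.1 z.2.1,
      fun _ _ _ => rfl, fun _ _ _ => rfl⟩
  obtain ⟨E, hE1, hE2⟩ : ∃ E : (V × Lab m) × ℕ × Bool → V,
      (∀ d j, E (d, j, true) = g j d) ∧ ∀ d j, E (d, j, false) = g' j d :=
    ⟨fun z => bif z.2.2 then g z.2.1 z.1 else g' z.2.1 z.1, fun _ _ => rfl, fun _ _ => rfl⟩
  set A : Set (V × Lab m × ℕ × Bool) :=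
    N ×ˢ (Set.univ ×ˢ (Set.Iic T ×ˢ Set.univ)) with hA
  set C : Set ((V × Lab m) × ℕ × Bool) := S ×ˢ (Set.Iic k ×ˢ Set.univ) with hC
  have hAc : A.ncard = N.ncard * ((8 * m + 1) * ((T + 1) * 2)) := by
    rw [hA, Set.ncard_prod, Set.ncard_prod, Set.ncard_prod, hLab, hIic, hB]
  have hCc : C.ncard = S.ncard * ((k + 1) * 2) := by
    rw [hC, Set.ncard_prod, Set.ncard_prod, hIic, hB]
  have hAf : A.Finite := (Set.toFinite N).prod
    ((Set.toFinite _).prod ((Set.finite_Iic T).prod (Set.toFinite _)))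
  have hCf : C.Finite := (Set.toFinite S).prod ((Set.finite_Iic k).prod (Set.toFinite _))
  have hsub : N' ⊆ N ∪ F '' A ∪ E '' C := by
    intro x hx
    rcases h x hx with h1 | ⟨v, hv, i, j, hj, h1 | h1⟩ | ⟨d, hd, j, hj, h1 | h1⟩
    · exact Or.inl (Or.inl h1)
    · exact Or.inl (Or.inr ⟨(v, i, j, true), ⟨hv, trivial, hj, trivial⟩,
        (hF1 v i j).trans h1.symm⟩)
    · exact Or.inl (Or.inr ⟨(v, i, j, false), ⟨hv, trivial, hj, trivial⟩,
        (hF2 v i j).trans h1.symm⟩)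
    · exact Or.inr ⟨(d, j, true), ⟨hd, hj, trivial⟩, (hE1 d j).trans h1.symm⟩
    · exact Or.inr ⟨(d, j, false), ⟨hd, hj, trivial⟩, (hE2 d j).trans h1.symm⟩
  have h1 := Set.ncard_le_ncard hsub (Set.toFinite _)
  have h2 := Set.ncard_union_le (N ∪ F '' A) (E '' C)
  have h3 := Set.ncard_union_le N (F '' A)
  have h4 := Set.ncard_image_le (f := F) hAf
  have h5 := Set.ncard_image_le (f := E) hCf
  rw [hAc] at h4
  rw [hCc] at h5
  calc N'.ncard ≤ N.ncard + N.ncard * ((8 * m + 1) * ((T + 1) * 2)) +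
        S.ncard * ((k + 1) * 2) := by omega
    _ = _ := by ring

namespace Sys

variable {V : Type} [Group V] [Finite V] (X : Sys m V)

theorem vs_step (s r : ℕ) : (X.VS (s + 1)).ncard ≤
    (1 + 2 * (8 * m + 1) * (r + 2 * X.K3 + 1)) * (X.VS s).ncard +
      2 * (X.K3 + 1) * (X.Sdeep s r).ncard :=
  count_step (fun j v i => ((nxt (nbG X.ρ) X.c)^[j] (v, i)).1)
    (fun j v i => ((nxt (nbG X.ρ) (fun v => rneg (X.c v)))^[j] (v, i)).1)
    (fun j d => ((nxt (nbG X.ρ) X.c)^[j] d).1)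
    (fun j d => ((nxt (nbG X.ρ) (fun v => rneg (X.c v)))^[j] (d.1, d.2 - (X.c d.1).1)).1)
    fun _ hx => X.vs_cover s r hx

end Sys

end URW
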