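import Pool.Agent.URW.E.Thick
import Pool.Agent.URW.E.Step
import Pool.Agent.URW.E.Const
import Pool.Agent.URW.Cox.Main
import Pool.Agent.URW.Q.Main
import Pool.Agent.URW.Hol.Main
import Pool.Agent.URW.Sec1
import Pool.Agent.UWT.Final

/-!
# URW E: end of the proof (section 8)

* `bound`: if the set of all deep darts of level `s` is small for every `s < K2`, then
  `VS K2` is small.
* `answer_of`: the final theorem from the black boxes `cover`, `sdeep_noncr`, `exists_sys`.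
-/

set_option autoImplicit false

open UW1
open scoped ENNReal

namespace URW

variable {m : ℕ}

/-- The number `K2`. -/
def k2 (K : ℕ) : ℕ := 2 * (K + 2) + 4

/-- The number `K3`. -/
def k3 (K : ℕ) : ℕ := 2 * (K + 2) + 8

/-- The growth factor. -/
noncomputable def gr (m K : ℕ) (r : ℕ) : ℝ := 1 + 2 * (8 * m + 1) * (r + 2 * k3 K + 1)

namespace Sys

variable {V : Type} [Group V] [Fintype V] (X : Sys m V)

/-- The recursion in terms of densities. -/
theorem dens_step (s r : ℕ) {η : ℝ}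
    (hη : ((X.Sdeep s r).ncard : ℝ) ≤ η * (Fintype.card V : ℝ)) :
    ((X.VS (s + 1)).ncard : ℝ) / Fintype.card V ≤
      gr m X.K r * (((X.VS s).ncard : ℝ) / Fintype.card V) + 2 * (k3 X.K + 1) * η := by
  have hV : (0 : ℝ) < Fintype.card V := by exact_mod_cast Fintype.card_pos
  have h1 := X.vs_step s r
  have h2 : ((X.VS (s + 1)).ncard : ℝ) ≤ (1 + 2 * (8 * m + 1) * (r + 2 * X.K3 + 1)) *
      (X.VS s).ncard + 2 * (X.K3 + 1) * (X.Sdeep s r).ncard := by exact_mod_cast h1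
  have e : (X.K3 : ℝ) = k3 X.K := rfl
  rw [e] at h2
  rw [div_le_iff₀ hV, add_mul, mul_assoc (gr m X.K r), div_mul_cancel₀ _ hV.ne']
  refine h2.trans (add_le_add le_rfl ?_)
  have h3 : (0 : ℝ) ≤ 2 * (k3 X.K + 1) := by positivity
  calc 2 * ((k3 X.K : ℝ) + 1) * (X.Sdeep s r).ncard
      ≤ 2 * (k3 X.K + 1) * (η * Fintype.card V) := mul_le_mul_of_nonneg_left hη h3
    _ = 2 * (k3 X.K + 1) * η * Fintype.card V := by ring

/-- Thick noncrossing sets are small, so the set of deep darts is small. -/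
theorem deep_small (s r : ℕ) (hr : 1 ≤ r) (η : ℝ)
    (hnc : ∀ S : Finset (V × Lab m), (S : Set (V × Lab m)) = X.Sdeep s r → NonCr X.c S)
    (hc : ¬ ∃ S : Finset (V × Lab m), Thick (nbG X.ρ) X.c r S ∧ NonCr X.c S ∧
      η * (Fintype.card V : ℝ) < S.card) :
    ((X.Sdeep s r).ncard : ℝ) ≤ η * (Fintype.card V : ℝ) := by
  classical
  by_contra hlt
  rw [not_le] at hlt
  have hfin : (X.Sdeep s r).Finite := Set.toFinite _
  have e : ((hfin.toFinset : Finset (V × Lab m)) : Set (V × Lab m)) = X.Sdeep s r :=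
    hfin.coe_toFinset
  refine hc ⟨hfin.toFinset, X.sdeep_thick s r hr _ e, hnc _ e, ?_⟩
  rwa [← Set.ncard_eq_toFinset_card _ hfin]

end Sys

/-- THE FINAL THEOREM from the black boxes. -/
theorem answer_of
    (cover : ∀ {m : ℕ} {V : Type} [Group V] [Finite V] (X : Sys m V) (v : V), v ∈ X.VS X.K2)
    (noncr : ∀ {m : ℕ} {V : Type} [Group V] [Finite V] (X : Sys m V) (s r : ℕ)
      (S : Finset (V × Lab m)), (S : Set (V × Lab m)) = X.Sdeep s r → NonCr X.c S)
    (exsys : ∀ {m K n L : ℕ}, 1000 * (K + 10) ≤ m → ∀ {V : Type} [Group V] [Finite V]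
      (ρ : Wm m →* V), Function.Surjective ρ → InjN ρ n → (∀ w, ρ w = 1 → Even (UWW.len w)) →
      1000 * (K + 10) * (L + 1) ≤ n → ∀ (c : V → Rot m) (H : Finset V), Sparse (nbG ρ) 10 H →
      (∀ d : V × Lab m, ∃ j < L, ((nxt (nbG ρ) c)^[j] d).1 ∈ H) →
      ∀ [UWT.Conn (blk (nbG ρ) c (H : Set V))],
      UWT.HasLabel (UWT.Pt (blk (nbG ρ) c (H : Set V))) K →
      ∃ X : Sys m V, X.ρ = ρ ∧ X.c = c ∧ X.H = H ∧ X.K = K)
    (n : ℕ) :
    ∃ (X Q : Type) (_ : MetricSpace X) (_ : MetricSpace Q) (π : Q → X),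
      CompactSpace X ∧ Geodesic X ∧ SimplyConnectedSpace Q ∧ Geodesic Q ∧ IsCoveringMap π ∧
      LocIso π ∧ UWT.UWloc 1 Q ≤ 1 ∧ (n : ℝ≥0∞) ≤ UW 1 X := by
  classical
  -- the width and the number of labels
  obtain ⟨K, hK⟩ : ∃ K : ℕ, K = n * 100 := ⟨_, rfl⟩
  obtain ⟨m, hm⟩ : ∃ m : ℕ, m = 1000 * (K + 10) := ⟨_, rfl⟩
  have hm100 : 100 ≤ m := by omega
  -- constants
  obtain ⟨δ, hδe⟩ : ∃ δ : ℝ, δ = 1 / (2 * ((k2 K : ℝ) + 1)) := ⟨_, rfl⟩
  have hδ : 0 < δ := by
    rw [hδe]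
    positivity
  obtain ⟨ε, η, r, hε, hηr, hrec⟩ := exists_consts
    (fun η r => 1 ≤ r ∧ ∃ n : ℕ, ∀ (V : Type) [Fintype V] [Nonempty V]
      (nb : V → Lab m → V), Invol nb → Uniq nb n →
      (Nat.card {c : V → Rot m // ∃ S : Finset (V × Lab m), Thick nb c r S ∧ NonCr c S ∧
        η * (Fintype.card V : ℝ) < S.card} : ℝ) ≤ δ * (Nat.card (V → Rot m) : ℝ))
    (fun η hη => by
      obtain ⟨r, n, h1, h2⟩ := lines_main m hm100 η δ hη hδ
      exact ⟨r, h1, n, h2⟩) (gr m K) (fun r => by unfold gr; positivity)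
    (2 * ((k3 K : ℝ) + 1)) (by positivity) (k2 K) (1 / 2) (by norm_num)
  have hηr' : ∀ s : ℕ, ∃ n : ℕ, s < k2 K → ∀ (V : Type) [Fintype V] [Nonempty V]
      (nb : V → Lab m → V), Invol nb → Uniq nb n →
      (Nat.card {c : V → Rot m // ∃ S : Finset (V × Lab m), Thick nb c (r s) S ∧ NonCr c S ∧
        η s * (Fintype.card V : ℝ) < S.card} : ℝ) ≤ δ * (Nat.card (V → Rot m) : ℝ) := by
    intro s
    by_cases hs : s < k2 K
    · obtain ⟨n, hn⟩ := (hηr s hs).2.2
      exact ⟨n, fun _ => hn⟩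
    · exact ⟨0, fun h => absurd h hs⟩
  choose nn hnn using hηr'
  -- holes
  obtain ⟨q, hq⟩ := exists_nat_ge (2 / ε + 10)
  have hq10 : 10 ≤ q := by
    have : (10 : ℝ) ≤ q := by
      have : 0 < 2 / ε := by positivity
      linarith
    exact_mod_cast this
  obtain ⟨L, nH, hL0, hH⟩ := holes_main m q hm100 (by omega)
  -- the finite quotient
  obtain ⟨M, hM⟩ : ∃ M : ℕ, M = (∑ s ∈ Finset.range (k2 K), nn s) + nH +
    1000 * (K + 10) * (L + 1) := ⟨_, rfl⟩
  obtain ⟨V, _, _, ρ, hsurj, hinj, heven⟩ := exists_quot hm100 (2 * M)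
  have := Fintype.ofFinite V
  have hinj' : ∀ a ≤ 2 * M, InjN ρ a := fun a ha l hl h => hinj l (hl.trans ha) h
  have huniq : ∀ a ≤ M, Uniq (nbG ρ) a := fun a ha => by
    exact uniq_nbG hm100 ρ (hinj' (2 * a) (by omega))
  have hgeo : GeoW (nbG ρ) nH := geoW_nbG hm100 ρ (hinj' (2 * nH) (by omega))
  have hne : Nonempty (Rot m) := by
    refine ⟨⟨(m : Lab m), ?_⟩⟩
    have h1 : (m : Lab m).valMinAbs = m := by
      rw [ZMod.valMinAbs_spec]
      refine ⟨by simp, ?_, ?_⟩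
      · push_cast
        omega
      · push_cast
        omega
    unfold cd
    rw [h1]
    simp
  -- the rotations
  obtain ⟨c, hc⟩ := pick (k2 K) (fun s (c : V → Rot m) =>
    ∃ S : Finset (V × Lab m), Thick (nbG ρ) c (r s) S ∧ NonCr c S ∧
      η s * (Fintype.card V : ℝ) < S.card) (fun s hs => by
    have h1 : nn s ≤ M := by
      have := Finset.single_le_sum (f := nn) (fun i _ => Nat.zero_le _)
        (Finset.mem_range.2 hs)
      omega
    have h2 := hnn s hs V (nbG ρ) (invol_nbG ρ) (huniq _ h1)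
    rwa [hδe] at h2)
  -- the holes
  obtain ⟨H, hHs, hHc, hHh⟩ := hH V (nbG ρ) (invol_nbG ρ) (huniq _ (by omega)) hgeo c
  have hS10 : Sparse (nbG ρ) 10 H := fun v hv l hl h => hHs v hv l (hl.trans hq10) h
  have hbig : 1000 * (K + 10) * (L + 1) ≤ 2 * M := by omega
  have h10L : 10 * L ≤ 2 * M :=
    (Nat.mul_le_mul (by omega : 10 ≤ 1000 * (K + 10)) (Nat.le_succ L)).trans hbig
  have h100M : 100 ≤ 2 * M :=
    (Nat.mul_le_mul (by omega : 100 ≤ 1000 * (K + 10)) (Nat.succ_le_succ (Nat.zero_le L))).trans hbig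
  -- the complex
  have hconn := conn_blk hm100 ρ hsurj (2 * M) h100M hinj c H hS10
  obtain ⟨V', T, K', p, φ, hV', hK', _, hcoh, hcov, hφ, hnear⟩ :=
    cover_blk hm100 ρ hsurj (2 * M) L h100M h10L hinj c H hS10 hHh
  refine UWT.final K' (blk (nbG ρ) c (H : Set V)) hcoh hcov φ (fun s hs => ?_) 98 hnear n ?_
  · convert hφ s hs
  · intro hlab
    have hlab' : UWT.HasLabel (UWT.Pt (blk (nbG ρ) c (H : Set V))) K := by
      convert hlab using 1
      rw [hK]
      push_cast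
      ring
    obtain ⟨X, rfl, rfl, rfl, hXK⟩ := exsys hm.ge ρ hsurj hinj heven hbig c H hS10 hHh hlab'
    have hV : (0 : ℝ) < Fintype.card V := by exact_mod_cast Fintype.card_pos
    have hfin := hrec (fun s => ((X.VS s).ncard : ℝ) / Fintype.card V) ?_ ?_
    · have h1 : X.VS (k2 K) = Set.univ := by
        rw [Set.eq_univ_iff_forall]
        intro v
        have h2 := cover X v
        have h3 : X.K2 = k2 K := by
          rw [← hXK]
          rfl
        rwa [h3] at h2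
      have h4 : ((X.VS (k2 K)).ncard : ℝ) / Fintype.card V = 1 := by
        rw [h1, Set.ncard_univ, Nat.card_eq_fintype_card, div_self hV.ne']
      rw [h4] at hfin
      norm_num at hfin
    · rw [X.vs_zero, Set.ncard_coe_finset, div_le_iff₀ hV]
      have h1 : (q : ℝ) * (X.H.card : ℝ) ≤ 2 * Fintype.card V := by exact_mod_cast hHc
      have h2 : 2 / ε ≤ q := by linarith
      have h3 : 2 ≤ q * ε := by rwa [div_le_iff₀ hε] at h2
      have h4 : (0 : ℝ) ≤ X.H.card := by positivity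
      nlinarith
    · intro s hs
      have h1 := X.deep_small s (r s) (hηr s hs).2.1 (η s) (noncr X s (r s)) (hc s hs)
      have h2 := X.dens_step s (r s) h1
      rw [hXK] at h2
      exact h2

end URW
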