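import Pool.Agent.URW.B.Lift

/-!
# URW E/Pos: positions on the segments of minimal chains (section 8)

PROOFS.
* `run_rho`, `run_rho'`: `X.ρ (nW w i) = nbG X.ρ (X.ρ w) i` (`map_mul`) and
  `X.cW w = X.c (X.ρ w)` (definition). Induction on the word; `RunFrom` of `i :: j :: l`. (Compare
  the private lemma `run_map` of `B/Walk.lean`.)
* `iter_take`: `w = i :: l`. `runFrom_iterate h (q + j)` and `runFrom_iterate h q`, with
  `Function.iterate_add_apply` (`q + j = j + q`).
* `iter_take_fst`: if `j = 0` clear; else from `iter_take` for `q + (j - 1)` and one more step, or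
  from `runFrom_append` for `w = w.take q ++ w.drop q` and `runFrom_iterate_fst`
  (`w.drop q = w[q] :: w.drop (q + 1)`, `List.drop_eq_getElem_cons`; `(w.drop q).take j`,
  `List.take_add`).
* `vs_zero`: `A.length < 0` is false.
* `start_mem`: `A = []`: `h₀ ∈ HW` by `Legit` (`IsBase`, `Tch`). `A = A' ++ [e]`
  (`List.eq_nil_or_concat`): the chain is `A' ++ (e ++ []) :: (d :: B)`, `A'.length < A.length`.
* `deep_fwd`, `deep_bwd`: the definition of `Sdeep` and `Deep`, with
  `u = w.take (q - 1)`, `a = w[q - 1]`, `b = w[q]`, `v = w.drop (q + 1)`: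
  `(w.take (q - 1) ++ [w[q - 1]]) ++ (w[q] :: w.drop (q + 1)) = w` (`List.take_concat_get'`,
  `List.take_append_getElem`, `List.drop_eq_getElem_cons`, `List.take_append_drop`),
  `w.take (q - 1) ++ [w[q - 1]] = w.take q`. `1 ≤ K3` by its definition.
-/

set_option autoImplicit false

namespace URW

variable {m : ℕ}

section run

variable {U : Type} {nb : U → Lab m → U} {c : U → Rot m}

/-- Reading the darts of a run from the position `q`. -/
theorem iter_take {x : U} {w : List (Lab m)} (h : RunFrom nb c x w) {q j : ℕ}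
    (hq : q < w.length) (hj : q + j < w.length) :
    (nxt nb c)^[j] (walk nb x (w.take q), w[q]) = (walk nb x (w.take (q + j)), w[q + j]) := by
  cases w with
  | nil => exact absurd hq (Nat.not_lt_zero _)
  | cons i l =>
    have h1 := runFrom_iterate h q hq
    have h2 := runFrom_iterate h (q + j) hj
    rw [← h1, ← h2, ← Function.iterate_add_apply, add_comm]

theorem iter_take_fst {x : U} {w : List (Lab m)} (h : RunFrom nb c x w) {q j : ℕ}
    (hq : q < w.length) (hj : q + j ≤ w.length) :
    ((nxt nb c)^[j] (walk nb x (w.take q), w[q])).1 = walk nb x (w.take (q + j)) := by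
  cases w with
  | nil => exact absurd hq (Nat.not_lt_zero _)
  | cons i l =>
    have h1 := runFrom_iterate h q hq
    have h2 := runFrom_iterate_fst h (q + j) hj
    rw [← h1, ← h2, ← Function.iterate_add_apply, add_comm]

end run

namespace Sys

variable {V : Type} [Group V] (X : Sys m V)

theorem run_rho {a : Wm m} {d : List (Lab m)} (h : RunFrom nW X.cW a d) :
    RunFrom (nbG X.ρ) X.c (X.ρ a) d := by
  induction d generalizing a with
  | nil => trivial
  | cons i t ih =>
    cases t with
    | nil => trivial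
    | cons j l =>
      obtain ⟨h1, h2⟩ := h
      have e : X.ρ (nW a i) = nbG X.ρ (X.ρ a) i := map_mul X.ρ a (sg i)
      refine ⟨?_, ?_⟩
      · rw [← e]
        exact h1
      · rw [← e]
        exact ih h2

theorem run_rho' {a : Wm m} {d : List (Lab m)} (h : RunFrom nW (fun w => rneg (X.cW w)) a d) :
    RunFrom (nbG X.ρ) (fun v => rneg (X.c v)) (X.ρ a) d := by
  induction d generalizing a with
  | nil => trivial
  | cons i t ih =>
    cases t with
    | nil => trivial
    | cons j l =>
      obtain ⟨h1, h2⟩ := h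
      have e : X.ρ (nW a i) = nbG X.ρ (X.ρ a) i := map_mul X.ρ a (sg i)
      refine ⟨?_, ?_⟩
      · rw [← e]
        exact h1
      · rw [← e]
        exact ih h2

theorem K3_pos : 1 ≤ X.K3 := by
  unfold K3
  omega

variable [Finite V]

theorem vs_zero : X.VS 0 = (X.H : Set V) := by
  ext v
  constructor
  · rintro (h | ⟨h₀, h, A, B, u, w, -, -, h3, -⟩)
    · exact h
    · exact absurd h3 (Nat.not_lt_zero _)
  · exact fun h => Or.inl h

/-- The start of segment number `A.length`. -/
theorem start_mem {h₀ h : Wm m} {A B : List (List (Lab m))} {d : List (Lab m)}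
    (hl : X.Legit h₀ h) (hm : X.MinCh h₀ h (A ++ d :: B)) :
    X.ρ (walk nW h₀ A.flatten) ∈ X.VS A.length := by
  induction A using List.reverseRecOn with
  | nil =>
    left
    obtain ⟨-, p, hb, -⟩ := hl
    exact hb.1.1
  | append_singleton A' e _ =>
    right
    refine ⟨h₀, h, A', d :: B, e, [], hl, ?_, ?_, ?_⟩
    · rw [List.append_nil]
      rw [List.append_assoc] at hm
      exact hm
    · rw [List.length_append]
      exact Nat.lt_succ_self _
    · rw [List.flatten_append, List.flatten_singleton]

private theorem take_pred {w : List (Lab m)} {q : ℕ} (h1 : 1 ≤ q) (h3 : q - 1 < w.length) :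
    w.take (q - 1) ++ [w[q - 1]] = w.take q := by
  rw [List.take_append_getElem h3, Nat.sub_add_cancel h1]

private theorem split_at {w : List (Lab m)} {q : ℕ} (h1 : 1 ≤ q) (h3 : q < w.length)
    (h2 : q - 1 < w.length) :
    (w.take (q - 1) ++ [w[q - 1]]) ++ (w[q] :: w.drop (q + 1)) = w := by
  rw [take_pred h1 h2, ← List.drop_eq_getElem_cons h3, List.take_append_drop]

/-- Deep positions of a segment in the direction of the line. -/
theorem deep_fwd {r : ℕ} {h₀ h : Wm m} {A B : List (List (Lab m))} {w : List (Lab m)}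
    (hl : X.Legit h₀ h) (hm : X.MinCh h₀ h (A ++ w :: B))
    (hr : RunFrom nW X.cW (walk nW h₀ A.flatten) w) (hlen : r + 2 * X.K3 < w.length) {q : ℕ}
    (h1 : X.K3 ≤ q) (h2 : q + X.K3 ≤ w.length) (h3 : q < w.length) :
    (X.ρ (walk nW (walk nW h₀ A.flatten) (w.take q)), w[q]) ∈ X.Sdeep A.length r := by
  have hK := X.K3_pos
  have hq1 : 1 ≤ q := hK.trans h1
  have hq2 : q - 1 < w.length := by omega
  have ht := take_pred hq1 hq2
  have hw := split_at hq1 h3 hq2
  refine ⟨walk nW (walk nW h₀ A.flatten) (w.take q), w[q - 1], w[q], rfl, Or.inl ⟨rfl,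
    h₀, h, A, B, w.take (q - 1), w.drop (q + 1), hl, ?_, rfl, ?_, ?_, ?_, ?_,
    Or.inl ⟨trivial, ?_⟩⟩⟩
  · rw [hw]
    exact hm
  · rw [ht, List.length_take]
    omega
  · rw [List.length_cons, List.length_drop]
    omega
  · rw [hw]
    exact hlen
  · rw [ht, walk_append]
  · rw [hw]
    exact hr

/-- Deep positions of a segment against the direction of the line. -/
theorem deep_bwd {r : ℕ} {h₀ h : Wm m} {A B : List (List (Lab m))} {w : List (Lab m)}
    (hl : X.Legit h₀ h) (hm : X.MinCh h₀ h (A ++ w :: B))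
    (hr : RunFrom nW (fun w => rneg (X.cW w)) (walk nW h₀ A.flatten) w)
    (hlen : r + 2 * X.K3 < w.length) {q : ℕ}
    (h1 : X.K3 ≤ q) (h2 : q + X.K3 ≤ w.length) (h3 : q - 1 < w.length) :
    (X.ρ (walk nW (walk nW h₀ A.flatten) (w.take q)), w[q - 1]) ∈ X.Sdeep A.length r := by
  have hK := X.K3_pos
  have hq1 : 1 ≤ q := hK.trans h1
  have hq2 : q < w.length := by omega
  have ht := take_pred hq1 h3
  have hw := split_at hq1 hq2 h3
  refine ⟨walk nW (walk nW h₀ A.flatten) (w.take q), w[q - 1], w[q], rfl, Or.inr ⟨rfl,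
    h₀, h, A, B, w.take (q - 1), w.drop (q + 1), hl, ?_, rfl, ?_, ?_, ?_, ?_,
    Or.inr ⟨not_false, ?_⟩⟩⟩
  · rw [hw]
    exact hm
  · rw [ht, List.length_take]
    omega
  · rw [List.length_cons, List.length_drop]
    omega
  · rw [hw]
    exact hlen
  · rw [ht, walk_append]
  · rw [hw]
    exact hr

end Sys

end URW
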