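import Pool.Agent.URW.E.Pos

/-!
# URW E/Thick: the set of deep darts is thick (section 8)

PROOFS.
* `thick_run` (`W` is a run from `z`; the darts at all positions `q` with
  `k ≤ q ≤ |W| - k` are in `S`; `|W| > r + 2 k`): the interval of the `r` positions
  `q₀, ..., q₀ + r - 1` with `q₀ = min p (|W| - k - (r - 1))` consists of such positions and
  contains `p`: `|W| - k - (r - 1) ≥ k + 2`, so `q₀ ≥ k`; `q₀ + (r - 1) ≤ |W| - k`; `q₀ ≤ p` and
  `p - q₀ ≤ r - 1`. Take `e = (walk z (W.take q₀), W[q₀])`, `j = p - q₀`; `iter_take` gives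
  `nxt^[i] e = (walk z (W.take (q₀ + i)), W[q₀ + i])` (`q₀ + i < |W|` since `k ≥ 1`).
* `sdeep_thick`: let `d ∈ S`, so `d.1 = ρ x`, and `Deep s r x a b True` with `d.2 = b`, or
  `Deep s r x a b False` with `d.2 = a`; `w = (u ++ [a]) ++ (b :: v)` is the segment, `A.length = s`,
  `y = walk nW h₀ A.flatten`, `x = walk nW h₀ (A.flatten ++ (u ++ [a])) = walk nW y (w.take p)`
  for `p = u.length + 1` (`walk_append`), `K3 ≤ p`, `p + K3 ≤ |w|`.
  FORWARD (`fwd = True`; the second alternative of `Deep` is absurd): `RunFrom nW cW y w`, so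
  `RunFrom (nbG ρ) c (ρ y) w` (`run_rho`); apply `thick_run` with `W = w`, `z = ρ y`, `k = K3`
  and the position `p`; the hypothesis on `S` is `deep_fwd` (`rho_walk` to pull out `ρ`);
  `w[p] = b`.
  BACKWARD: `RunFrom nW (rneg ∘ cW) y w`, so `RunFrom (nbG ρ) (rneg ∘ c) (ρ y) w` (`run_rho'`), and by
  `runFrom_reverse` (`invol_nbG`) and `rneg_rneg` `RunFrom (nbG ρ) c z W` with `W = w.reverse`,
  `z = walk (ρ y) w`. For a position `q` of `W`, `0 ≤ q ≤ |w|`: `walk z (W.take q) =
  walk (ρ y) (w.take (|w| - q))` (`walk_reverse` for `w = w.take (|w| - q) ++ w.drop (|w| - q)`;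
  `W.take q = (w.drop (|w| - q)).reverse`, `List.take_reverse`), and `W[q] = w[|w| - q - 1]`
  (`List.getElem_reverse`). So the hypothesis of `thick_run` is `deep_bwd` at `|w| - q`; the
  position of `x` is `|w| - p`, `W[|w| - p] = w[p - 1] = a`.
-/

set_option autoImplicit false

namespace URW

variable {m : ℕ}

theorem thick_run {U : Type} {nb : U → Lab m → U} {c : U → Rot m} {z : U} {W : List (Lab m)}
    (h : RunFrom nb c z W) {k r : ℕ} (hk : 1 ≤ k) (hr : 1 ≤ r) (hl : r + 2 * k < W.length)
    {S : Set (U × Lab m)}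
    (hS : ∀ q, k ≤ q → q + k ≤ W.length → ∀ h' : q < W.length,
      (walk nb z (W.take q), W[q]) ∈ S)
    {p : ℕ} (h1 : k ≤ p) (h2 : p + k ≤ W.length) (h3 : p < W.length) :
    ∃ e : U × Lab m, (∃ j < r, (nxt nb c)^[j] e = (walk nb z (W.take p), W[p])) ∧
      ∀ i < r, (nxt nb c)^[i] e ∈ S := by
  obtain ⟨q₀, hq0, hq1, hq2, hq3⟩ : ∃ q₀ : ℕ, k ≤ q₀ ∧ q₀ + (r - 1) + k ≤ W.length ∧ q₀ ≤ p ∧
      p ≤ q₀ + (r - 1) := by
    refine ⟨min p (W.length - k - (r - 1)), ?_, ?_, ?_, ?_⟩ <;> omega
  have hq : q₀ < W.length := by omega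
  refine ⟨(walk nb z (W.take q₀), W[q₀]), ⟨p - q₀, by omega, ?_⟩, fun i hi => ?_⟩
  · rw [iter_take h hq (j := p - q₀) (by omega)]
    have h4 : q₀ + (p - q₀) = p := by omega
    simp only [h4]
  · rw [iter_take h hq (j := i) (by omega)]
    exact hS (q₀ + i) (by omega) (by omega) (by omega)

private theorem walk_rev_take {U : Type} {nb : U → Lab m → U} (hI : Invol nb) (y : U)
    (w : List (Lab m)) (q : ℕ) :
    walk nb (walk nb y w) (w.reverse.take q) = walk nb y (w.take (w.length - q)) := by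
  have h1 : walk nb y w =
      walk nb (walk nb y (w.take (w.length - q))) (w.drop (w.length - q)) := by
    rw [← walk_append, List.take_append_drop]
  rw [List.take_reverse, h1, walk_reverse hI]

namespace Sys

variable {V : Type} [Group V] [Finite V] (X : Sys m V)

theorem sdeep_thick (s r : ℕ) (hr : 1 ≤ r) (S : Finset (V × Lab m))
    (hS : (S : Set (V × Lab m)) = X.Sdeep s r) : Thick (nbG X.ρ) X.c r S := by
  intro d hd
  have hmem : ∀ e, e ∈ S ↔ e ∈ X.Sdeep s r := fun e => by rw [← hS]; exact Iff.rfl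
  obtain ⟨x, a, b, hx, h⟩ := (hmem d).1 hd
  rcases h with ⟨h2, h₀, h, A, B, u, v, hl, hm, hA, hu, hv, hlen, hxx, hrun⟩ |
    ⟨h2, h₀, h, A, B, u, v, hl, hm, hA, hu, hv, hlen, hxx, hrun⟩
  · rcases hrun with ⟨-, hrun⟩ | ⟨hn, -⟩
    swap
    · exact absurd trivial hn
    have hlw : ((u ++ [a]) ++ (b :: v)).length = (u ++ [a]).length + (b :: v).length :=
      List.length_append
    have hb : 1 ≤ (b :: v).length := by simp
    obtain ⟨e, ⟨j, hj, hje⟩, he⟩ := thick_run (X.run_rho hrun) X.K3_pos hr hlen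
      (S := {e | e ∈ S}) (fun q q1 q2 q3 => by
        refine (hmem _).2 ?_
        rw [← hA, ← rho_walk]
        exact X.deep_fwd hl hm hrun hlen q1 q2 q3) (p := (u ++ [a]).length) hu
      (by omega) (by omega)
    refine ⟨e, ⟨j, hj, ?_⟩, he⟩
    rw [hje]
    refine Prod.ext ?_ ?_
    · show walk (nbG X.ρ) _ _ = d.1
      rw [hx, hxx, walk_append, rho_walk X (walk nW h₀ A.flatten), List.take_left]
    · show ((u ++ [a]) ++ (b :: v))[(u ++ [a]).length] = d.2
      rw [h2, List.getElem_append_right le_rfl]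
      simp
  · rcases hrun with ⟨hn, -⟩ | ⟨-, hrun⟩
    · exact absurd hn id
    have hI := invol_nbG X.ρ
    have hlw : ((u ++ [a]) ++ (b :: v)).length = (u ++ [a]).length + (b :: v).length :=
      List.length_append
    have hb : 1 ≤ (b :: v).length := by simp
    have hau : (u ++ [a]).length = u.length + 1 := by simp
    have hrun2 := runFrom_reverse hI (X.run_rho' hrun)
    simp only [rneg_rneg] at hrun2
    have hk := X.K3_pos
    obtain ⟨e, ⟨j, hj, hje⟩, he⟩ := thick_run hrun2 hk hr
      (by rw [List.length_reverse]; exact hlen)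
      (S := {e | e ∈ S}) (fun q q1 q2 q3 => by
        refine (hmem _).2 ?_
        rw [List.length_reverse] at q2 q3
        rw [walk_rev_take hI, ← hA, ← rho_walk]
        have h5 := X.deep_bwd hl hm hrun hlen
          (q := ((u ++ [a]) ++ (b :: v)).length - q) (by omega) (by omega) (by omega)
        have h6 : ((u ++ [a]) ++ (b :: v)).reverse[q] =
            ((u ++ [a]) ++ (b :: v))[((u ++ [a]) ++ (b :: v)).length - q - 1] := by
          rw [List.getElem_reverse]
          congr 1
          omega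
        rw [h6]
        exact h5) (p := (b :: v).length) hv
      (by rw [List.length_reverse]; omega) (by rw [List.length_reverse]; omega)
    refine ⟨e, ⟨j, hj, ?_⟩, he⟩
    rw [hje]
    refine Prod.ext ?_ ?_
    · show walk (nbG X.ρ) _ _ = d.1
      have h7 : ((u ++ [a]) ++ (b :: v)).length - (b :: v).length = (u ++ [a]).length := by
        omega
      rw [walk_rev_take hI, h7, hx, hxx, walk_append, rho_walk X (walk nW h₀ A.flatten),
        List.take_left]
    · show ((u ++ [a]) ++ (b :: v)).reverse[(b :: v).length] = d.2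
      rw [h2, List.getElem_reverse]
      have h8 : ((u ++ [a]) ++ (b :: v)).length - 1 - (b :: v).length = u.length := by
        omega
      simp only [h8]
      rw [List.getElem_append_left (by simp)]
      simp

end Sys

end URW
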